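import Pool.Agent.H334R5.Nest.Alg
import Pool.Agent.H334R5.Clo.PolyPart

/-!
# The algorithm runs in polynomial time
-/

set_option autoImplicit false

namespace Pool.Agent.H334R5.Nest

open Pool.Agent.NPC
open Pool.Agent.H334R5.Clo (ext poly_ext sz_sublist poly_take poly_drop)

/-! ### The inference procedure -/

section Run

variable {D : List (List Bool) → List Bool → Bool}

theorem poly_canAdv (hD : Poly (fun p : List (List Bool) × List Bool => D p.1 p.2)) :
    Poly (fun p : List (List Bool) × Item => canAdv D p.1 p.2) := by
  unfold canAdv
  refine Poly.optElim (o := fun p : List (List Bool) × Item => p.2.2.head?)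
    (g := fun _ => false) (h := fun p Z => p.2.1 || Z.all (fun y => D p.1 y)) (by fun_prop)
    (NPC.Poly.const _) ?_
  refine Poly.or (by fun_prop) ?_
  refine Poly.all (p := fun (p : (List (List Bool) × Item) × List (List Bool)) y => D p.1.1 y)
    (Poly.snd Poly.id) ?_
  exact Poly.comp (g := fun p : List (List Bool) × List Bool => D p.1 p.2)
    (f := fun p : ((List (List Bool) × Item) × List (List Bool)) × List Bool => (p.1.1.1, p.2)) hD
    (by fun_prop)

theorem poly_adv (hD : Poly (fun p : List (List Bool) × List Bool => D p.1 p.2)) :
    Poly (fun p : List (List Bool) × Item => adv D p.1 p.2) := by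
  unfold adv
  exact Poly.cond (poly_canAdv hD) (by fun_prop) (Poly.snd Poly.id)

theorem poly_gain (hD : Poly (fun p : List (List Bool) × List Bool => D p.1 p.2)) :
    Poly (fun p : List (List Bool) × Item => gain D p.1 p.2) := by
  unfold gain
  refine Poly.cond (poly_canAdv hD) ?_ (NPC.Poly.const _)
  exact Poly.optElim (o := fun p : List (List Bool) × Item => p.2.2.head?)
    (g := fun _ => []) (h := fun _ Z => Z) (by fun_prop) (NPC.Poly.const _) (Poly.snd Poly.id)

theorem poly_round (hD : Poly (fun p : List (List Bool) × List Bool => D p.1 p.2)) :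
    Poly (fun s : List (List Bool) × List Item => round D s) := by
  unfold round
  refine Poly.pair (Poly.append (Poly.fst Poly.id) ?_) ?_
  · refine Poly.flatMap (F := fun (s : List (List Bool) × List Item) it => gain D s.1 it)
      (Poly.snd Poly.id) ?_
    exact Poly.comp (g := fun p : List (List Bool) × Item => gain D p.1 p.2)
      (f := fun p : (List (List Bool) × List Item) × Item => (p.1.1, p.2)) (poly_gain hD)
      (by fun_prop)
  · refine NPC.Poly.map (F := fun (s : List (List Bool) × List Item) it => adv D s.1 it)
      (Poly.snd Poly.id) ?_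
    exact Poly.comp (g := fun p : List (List Bool) × Item => adv D p.1 p.2)
      (f := fun p : (List (List Bool) × List Item) × Item => (p.1.1, p.2)) (poly_adv hD)
      (by fun_prop)

theorem sz_item (K : List (List Bool)) (it : Item) :
    sz (gain D K it) + sz (adv D K it) ≤ sz it + 1 := by
  unfold gain adv
  cases hc : canAdv D K it with
  | false => simp; omega
  | true =>
    obtain ⟨b, N⟩ := it
    cases N with
    | nil => simp [canAdv] at hc
    | cons Z R => cases b <;> simp <;> omega

theorem sz_items (K : List (List Bool)) (l : List Item) :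
    sz (l.flatMap (gain D K)) + sz (l.map (adv D K)) ≤ sz l + 1 := by
  induction l with
  | nil => simp
  | cons it l ih =>
    have h1 := sz_item (D := D) K it
    have h2 := sz_append (gain D K it) (l.flatMap (gain D K))
    simp only [List.flatMap_cons, List.map_cons, sz_list_cons]
    omega

theorem sz_round (s : List (List Bool) × List Item) : sz (round D s) ≤ sz s := by
  obtain ⟨K, l⟩ := s
  have h1 := sz_items (D := D) K l
  have h2 := sz_append K (l.flatMap (gain D K))
  unfold round
  simp only [sz_pair]
  omega

theorem sz_round_iter (k : ℕ) (s : List (List Bool) × List Item) :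
    sz ((round D)^[k] s) ≤ sz s := by
  induction k generalizing s with
  | zero => exact le_rfl
  | succ k ih =>
    rw [Function.iterate_succ_apply]
    exact (ih _).trans (sz_round s)

theorem poly_run (hD : Poly (fun p : List (List Bool) × List Bool => D p.1 p.2)) :
    Poly (fun l : List Item => run D l) := by
  unfold run
  have hw : Poly (fun l : List Item => work l) := by
    unfold work
    fun_prop
  refine Poly.iterLen (l := fun l : List Item => work l)
    (s := fun l : List Item => (([] : List (List Bool)), l))
    (F := fun _ s => round D s) hw (by fun_prop) ?_ (Polynomial.X + 2) ?_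
  · exact Poly.comp (g := fun s : List (List Bool) × List Item => round D s)
      (f := fun p : List Item × (List (List Bool) × List Item) => p.2) (poly_round hD)
      (Poly.snd Poly.id)
  · intro l k _
    refine (sz_round_iter k _).trans ?_
    simp
    omega

theorem poly_contra : Poly (fun l : List Item => contra l) := by
  unfold contra
  refine Poly.any (p := fun (_ : List Item) (it : Item) =>
    it.1 && it.2.head?.elim true (fun _ => false)) Poly.id ?_
  refine Poly.and (by fun_prop) ?_
  exact Poly.optElim (o := fun p : List Item × Item => p.2.2.head?)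
    (g := fun _ => true) (h := fun _ _ => false) (by fun_prop) (NPC.Poly.const _)
    (NPC.Poly.const _)

end Run

section Alg

variable {α : Type} [TEnc α] {G : α → List Bool → List (List (List Bool))}
  {D : List (List Bool) → List Bool → Bool}

theorem poly_items (hG : Poly (fun p : α × List Bool => G p.1 p.2)) :
    Poly (fun p : α × List (List Bool) × List Bool × List (List Bool) =>
      items (G p.1) p.2.1 p.2.2.1 p.2.2.2) := by
  unfold items
  refine Poly.append ?_ ?_
  · refine NPC.Poly.map (F := fun (p : α × List (List Bool) × List Bool × List (List Bool)) v =>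
      (true, G p.1 v)) (by fun_prop) ?_
    exact Poly.pair (NPC.Poly.const _) (Poly.comp (g := fun p : α × List Bool => G p.1 p.2)
      (f := fun p : (α × List (List Bool) × List Bool × List (List Bool)) × List Bool =>
        (p.1.1, p.2)) hG (by fun_prop))
  · refine NPC.Poly.map (F := fun (p : α × List (List Bool) × List Bool × List (List Bool)) v =>
      (false, G p.1 v)) (by fun_prop) ?_
    exact Poly.pair (NPC.Poly.const _) (Poly.comp (g := fun p : α × List Bool => G p.1 p.2)
      (f := fun p : (α × List (List Bool) × List Bool × List (List Bool)) × List Bool =>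
        (p.1.1, p.2)) hG (by fun_prop))

theorem poly_test (hG : Poly (fun p : α × List Bool => G p.1 p.2))
    (hD : Poly (fun p : List (List Bool) × List Bool => D p.1 p.2)) :
    Poly (fun p : α × List (List Bool) × List Bool × List (List Bool) =>
      test (G p.1) D p.2.1 p.2.2.1 p.2.2.2) := by
  unfold test
  exact Poly.comp (g := fun l : List Item => contra l)
    (f := fun p : α × List (List Bool) × List Bool × List (List Bool) =>
      (run D (items (G p.1) p.2.1 p.2.2.1 p.2.2.2)).2) poly_contra
    (Poly.snd (Poly.comp (g := fun l : List Item => run D l)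
      (f := fun p : α × List (List Bool) × List Bool × List (List Bool) =>
        items (G p.1) p.2.1 p.2.2.1 p.2.2.2) (poly_run hD) (poly_items hG)))

end Alg

section Prune

variable {α : Type} [TEnc α]
  {T : α → List (List Bool) → List Bool → List (List Bool) → Bool}

theorem poly_testAt (hT : Poly (fun p : α × List (List Bool) × List Bool × List (List Bool) =>
      T p.1 p.2.1 p.2.2.1 p.2.2.2)) :
    Poly (fun p : (α × List (List Bool)) × ℕ => testAt (T p.1.1) p.1.2 p.2) := by
  unfold testAt
  refine Poly.optElim (o := fun p : (α × List (List Bool)) × ℕ => (p.1.2.drop p.2).head?)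
    (g := fun _ => false)
    (h := fun p u => T p.1.1 (p.1.2.take p.2) u (p.1.2.drop (p.2 + 1)))
    (Poly.head? (poly_drop (by fun_prop) (by fun_prop))) (NPC.Poly.const _) ?_
  refine Poly.comp (g := fun p : α × List (List Bool) × List Bool × List (List Bool) =>
      T p.1 p.2.1 p.2.2.1 p.2.2.2)
    (f := fun p : ((α × List (List Bool)) × ℕ) × List Bool =>
      (p.1.1.1, p.1.1.2.take p.1.2, p.2, p.1.1.2.drop (p.1.2 + 1))) hT ?_
  exact Poly.pair (by fun_prop) (Poly.pair (poly_take (by fun_prop) (by fun_prop))
    (Poly.pair (by fun_prop) (poly_drop (by fun_prop) (by fun_prop))))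

theorem poly_prune (hT : Poly (fun p : α × List (List Bool) × List Bool × List (List Bool) =>
      T p.1 p.2.1 p.2.2.1 p.2.2.2)) :
    Poly (fun p : α × List (List Bool) => prune (T p.1) p.2) := by
  unfold prune
  refine Poly.optElim (o := fun p : α × List (List Bool) =>
      ((List.range p.2.length).filter (testAt (T p.1) p.2)).head?)
    (g := fun p => p.2) (h := fun p t => p.2.take t ++ p.2.drop (t + 1)) ?_ (by fun_prop)
    (Poly.append (poly_take (by fun_prop) (by fun_prop)) (poly_drop (by fun_prop) (by fun_prop)))
  refine Poly.head? (Poly.filter (p := fun (p : α × List (List Bool)) t => testAt (T p.1) p.2 t)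
    (Poly.range_length (Poly.snd Poly.id)) (poly_testAt hT))

theorem poly_pstep (hT : Poly (fun p : α × List (List Bool) × List Bool × List (List Bool) =>
      T p.1 p.2.1 p.2.2.1 p.2.2.2)) {K : α → ℕ} (hK : Poly K) :
    Poly (fun p : α × List (List Bool) => pstep (T p.1) (K p.1) p.2) := by
  unfold pstep
  exact Poly.ite (Poly.decide_lt (hK.comp (Poly.fst Poly.id)) (Poly.length (Poly.snd Poly.id)))
    (poly_prune hT) (Poly.snd Poly.id)

theorem poly_level (hT : Poly (fun p : α × List (List Bool) × List Bool × List (List Bool) =>
      T p.1 p.2.1 p.2.2.1 p.2.2.2)) {K : α → ℕ} (hK : Poly K) :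
    Poly (fun p : α × List (List Bool) => level (T p.1) (K p.1) p.2) := by
  unfold level
  have he : Poly (fun p : α × List (List Bool) => ext p.2) := poly_ext (Poly.snd Poly.id)
  obtain ⟨q, hq⟩ := he.sz_le
  refine Poly.iterLen (l := fun p : α × List (List Bool) => ext p.2)
    (s := fun p : α × List (List Bool) => ext p.2)
    (F := fun p C => pstep (T p.1) (K p.1) C) he he ?_ q ?_
  · exact Poly.comp (g := fun p : α × List (List Bool) => pstep (T p.1) (K p.1) p.2)
      (f := fun p : (α × List (List Bool)) × List (List Bool) => (p.1.1, p.2))
      (poly_pstep hT hK) (by fun_prop)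
  · intro p k _
    exact (sz_sublist (pstep_iter_sublist _ _ _ _)).trans (hq p)

end Prune

end Pool.Agent.H334R5.Nest
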