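import Pool.Agent.NPC.Dec

/-!
# Inference rules with short chains, closed sets, bounded nested conjunctive reductions

Polynomial time is Mathlib's `Turing.TM2ComputableInPolyTime` (through `Pool.Agent.NPC.PolyTime`).
-/

set_option autoImplicit false

namespace Pool.Agent.H334R5.Nest

open Pool.Agent.NPC

/-- A rule is a relation between finite lists of strings (the premises) and strings (the
conclusion). It is monotone if adding premises keeps the conclusions. -/
def MonotoneRule (D : List (List Bool) → List Bool → Prop) : Prop :=
  ∀ (Z Z' : List (List Bool)) (z : List Bool), Z ⊆ Z' → D Z z → D Z' z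

/-- A rule has short chains if there is a polynomial `p` such that in every list of more than
`p n` strings of length at most `n` some entry follows from the entries before it. -/
def ShortChains (D : List (List Bool) → List Bool → Prop) : Prop :=
  ∃ p : Polynomial ℕ, ∀ (n : ℕ) (Z : List (List Bool)), (∀ z ∈ Z, z.length ≤ n) →
    p.eval n < Z.length → ∃ (A : List (List Bool)) (z : List Bool) (B : List (List Bool)),
      Z = A ++ z :: B ∧ D A z

/-- The set `S` is closed under the rule `D`. -/
def ClosedUnder (D : List (List Bool) → List Bool → Prop) (S : Set (List Bool)) : Prop :=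
  ∀ (Z : List (List Bool)) (z : List Bool), (∀ y ∈ Z, y ∈ S) → D Z z → z ∈ S

open Classical in
/-- The number of leading entries of a list of lists of strings that are contained in `S`. -/
noncomputable def leading (S : Set (List Bool)) : List (List (List Bool)) → ℕ
  | [] => 0
  | Z :: R => if ∀ y ∈ Z, y ∈ S then leading S R + 1 else 0

/-- `A` reduces to `S` by a polynomial-time nested conjunctive reduction of depth `d`: a
polynomial-time computable function `r` maps each string `x` to a list of at most `d` lists of
strings, and `x ∈ A` iff the number of leading entries of `r x` that are contained in `S` is odd.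
So `x ∈ A` iff `Z₁ ⊆ S` but not (`Z₂ ⊆ S` but not (`Z₃ ⊆ S` but not ...)), where
`r x = [Z₁, Z₂, Z₃, ...]`. -/
def NestedConjReduces (d : ℕ) (A S : Set (List Bool)) : Prop :=
  ∃ r : List Bool → List (List (List Bool)), PolyTime (fun x => bits (r x)) ∧
    ∀ x, (r x).length ≤ d ∧ (x ∈ A ↔ Odd (leading S (r x)))

end Pool.Agent.H334R5.Nest
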