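import Pool.Agent.H334R5.Nest.Run
import Pool.Agent.H334R5.Clo.Alg

/-!
# The algorithm and its correctness
-/

set_option autoImplicit false

namespace Pool.Agent.H334R5.Nest

open Pool.Agent.NPC
open Pool.Agent.H251R5.PQ (Ver)
open Pool.Agent.H334R5.Clo (num num_take_mono ext ext_length mem_ext ext_sorted Left Inv)

/-! ### Pruning with a test -/

section Prune

variable (T : List (List Bool) → List Bool → List (List Bool) → Bool)

/-- The test at the position `t`. -/
def testAt (C : List (List Bool)) (t : ℕ) : Bool :=
  (C.drop t).head?.elim false (fun u => T (C.take t) u (C.drop (t + 1)))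

/-- Remove the first candidate excluded by the test. -/
def prune (C : List (List Bool)) : List (List Bool) :=
  ((List.range C.length).filter (testAt T C)).head?.elim C
    (fun t => C.take t ++ C.drop (t + 1))

/-- prune if the list is longer than `K` -/
def pstep (K : ℕ) (C : List (List Bool)) : List (List Bool) :=
  if K < C.length then prune T C else C

/-- one level: extend and prune -/
def level (K : ℕ) (C : List (List Bool)) : List (List Bool) :=
  (pstep T K)^[(ext C).length] (ext C)

theorem prune_cases (C : List (List Bool)) : prune T C = C ∨
    ∃ (A : List (List Bool)) (u : List Bool) (B : List (List Bool)), C = A ++ u :: B ∧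
      T A u B = true ∧ prune T C = A ++ B := by
  unfold prune
  cases h : ((List.range C.length).filter (testAt T C)).head? with
  | none => left; rfl
  | some t =>
    right
    have h1 := List.mem_of_mem_head? h
    rw [List.mem_filter, List.mem_range] at h1
    obtain ⟨ht, h2⟩ := h1
    unfold testAt at h2
    have h3 : C.drop t = C[t] :: C.drop (t + 1) := List.drop_eq_getElem_cons ht
    rw [h3, List.head?_cons, Option.elim_some] at h2
    refine ⟨C.take t, C[t], C.drop (t + 1), ?_, h2, rfl⟩
    rw [← h3, List.take_append_drop]

theorem prune_length {C : List (List Bool)} (h : ∃ (A : List (List Bool)) (u : List Bool)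
    (B : List (List Bool)), C = A ++ u :: B ∧ T A u B = true) :
    (prune T C).length + 1 = C.length := by
  obtain ⟨A, u, B, hC, ht⟩ := h
  have hmem : A.length ∈ (List.range C.length).filter (testAt T C) := by
    rw [List.mem_filter, List.mem_range]
    refine ⟨by rw [hC]; simp, ?_⟩
    unfold testAt
    have h1 : C.drop A.length = u :: B := by rw [hC]; simp
    have h2 : C.take A.length = A := by rw [hC]; simp
    have h3 : C.drop (A.length + 1) = B := by rw [hC]; simp
    rw [h1, h2, h3]
    simpa using ht
  unfold prune
  cases h : ((List.range C.length).filter (testAt T C)).head? with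
  | none =>
    rw [List.head?_eq_none_iff] at h
    rw [h] at hmem
    simp at hmem
  | some t =>
    have h1 := List.mem_of_mem_head? h
    rw [List.mem_filter, List.mem_range] at h1
    simp only [Option.elim_some, List.length_append, List.length_take, List.length_drop]
    omega

theorem prune_sublist (C : List (List Bool)) : (prune T C).Sublist C := by
  rcases prune_cases T C with h | ⟨A, u, B, h, -, h2⟩
  · rw [h]
  · rw [h2, h]
    exact (List.Sublist.refl A).append (List.sublist_cons_self u B)

theorem pstep_sublist (K : ℕ) (C : List (List Bool)) : (pstep T K C).Sublist C := by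
  unfold pstep
  split_ifs
  · exact prune_sublist T C
  · exact List.Sublist.refl C

theorem pstep_iter_sublist (K k : ℕ) (C : List (List Bool)) :
    ((pstep T K)^[k] C).Sublist C := by
  induction k generalizing C with
  | zero => exact List.Sublist.refl C
  | succ k ih =>
    rw [Function.iterate_succ_apply]
    exact (ih _).trans (pstep_sublist T K C)

end Prune

/-! ### The test -/

/-- The items for the hypothesis that `u` is the prefix of the largest witness. -/
def items (G : List Bool → List (List (List Bool))) (A : List (List Bool)) (u : List Bool)
    (B : List (List Bool)) : List Item :=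
  (A ++ [u]).map (fun v => (true, G v)) ++ B.map (fun v => (false, G v))

/-- The test which excludes the candidate `u` in the list `A ++ u :: B`. -/
def test (G : List Bool → List (List (List Bool))) (D : List (List Bool) → List Bool → Bool)
    (A : List (List Bool)) (u : List Bool) (B : List (List Bool)) : Bool :=
  contra (run D (items G A u B)).2

variable {G : List Bool → List (List (List Bool))} {D : List (List Bool) → List Bool → Bool}
  {S : Set (List Bool)}

theorem test_sound (m : ℕ)
    (hclosed : ∀ (Z : List (List Bool)) (z : List Bool), (∀ y ∈ Z, y ∈ S) → D Z z = true → z ∈ S)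
    {A : List (List Bool)} {u : List Bool} {B : List (List Bool)}
    (hG : ∀ v ∈ A ++ u :: B, (num v ≤ m ↔ Odd (leading S (G v))))
    (hsort : (A ++ u :: B).Pairwise (fun v w => num v < num w))
    (ht : test G D A u B = true) : num u ≠ m := by
  intro hm
  rw [List.pairwise_append, List.pairwise_cons] at hsort
  obtain ⟨hA, ⟨huB, hB⟩, hAB⟩ := hsort
  have h := run_sound (D := D) (S := S) hclosed (l := items G A u B) (by
    intro it hit
    unfold items at hit
    rw [List.mem_append, List.mem_map, List.mem_map] at hit
    unfold Good
    rcases hit with ⟨v, hv, rfl⟩ | ⟨v, hv, rfl⟩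
    · simp only [iff_true]
      rw [← hG v (by
        rw [List.mem_append, List.mem_singleton] at hv
        rw [List.mem_append, List.mem_cons]
        tauto)]
      rw [List.mem_append, List.mem_singleton] at hv
      rcases hv with hv | rfl
      · have := hAB v hv u (by simp)
        omega
      · omega
    · simp only [Bool.false_eq_true, iff_false]
      rw [← hG v (by simp [hv])]
      have := huB v hv
      omega)
  unfold test at ht
  rw [h] at ht
  exact absurd ht (by simp)

theorem test_complete
    (hmono : MonotoneRule (fun Z z => D Z z = true))
    (hrefl : ∀ (K : List (List Bool)) (y : List Bool), y ∈ K → D K y = true) (n p d : ℕ)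
    (hchain : ∀ Z : List (List Bool), (∀ z ∈ Z, z.length ≤ n) → p < Z.length →
      ∃ (A : List (List Bool)) (z : List Bool) (B : List (List Bool)), Z = A ++ z :: B ∧
        D A z = true)
    (C : List (List Bool)) (hd : ∀ u ∈ C, (G u).length ≤ d)
    (hlen : ∀ u ∈ C, ∀ Z ∈ G u, ∀ z ∈ Z, z.length ≤ n) (hk : bnd p d < C.length) :
    ∃ (A : List (List Bool)) (u : List Bool) (B : List (List Bool)), C = A ++ u :: B ∧
      test G D A u B = true := by
  by_contra hcon
  push Not at hcon
  have hmem : ∀ j (hj : j < C.length), C.getD j [] ∈ C := by
    intro j hj
    rw [List.getD_eq_getElem _ _ hj]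
    exact List.getElem_mem hj
  have h := no_long_pattern (D := fun Z z => D Z z = true) hmono hrefl n p hchain d C.length
    (fun j => G (C.getD j [])) false
    (fun t => (run D (items G (C.take (t - 1)) (C.getD (t - 1) []) (C.drop t))).1)
    (fun j hj => hd _ (hmem j hj)) (fun j hj => hlen _ (hmem j hj)) (by
      intro t ht1 ht2 j hj
      obtain ⟨s, rfl⟩ : ∃ s, t = s + 1 := ⟨t - 1, by omega⟩
      simp only [Nat.add_sub_cancel, Bool.xor_false, decide_eq_true_eq]
      have h3 : C.drop s = C[s] :: C.drop (s + 1) := List.drop_eq_getElem_cons (by omega)
      have h4 : C.getD s [] = C[s] := List.getD_eq_getElem _ _ (by omega)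
      have h5 : contra (run D (items G (C.take s) (C.getD s []) (C.drop (s + 1)))).2 = false := by
        have := hcon (C.take s) C[s] (C.drop (s + 1)) (by rw [← h3, List.take_append_drop])
        rw [h4]
        simpa [test] using this
      have h6 := run_complete hrefl h5
      by_cases hjs : j < s + 1
      · have h7 := h6 (true, G (C.getD j [])) (by
          unfold items
          rw [List.mem_append]
          left
          rw [List.mem_map]
          refine ⟨C.getD j [], ?_, rfl⟩
          rw [List.mem_append, List.mem_singleton]
          by_cases hj2 : j = s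
          · right; rw [hj2]
          · left
            rw [List.getD_eq_getElem _ _ hj, List.mem_take_iff_getElem]
            exact ⟨j, by omega, rfl⟩)
        exact ⟨h7.1, h7.2.trans (by simp [hjs])⟩
      · have h7 := h6 (false, G (C.getD j [])) (by
          unfold items
          rw [List.mem_append]
          right
          rw [List.mem_map]
          refine ⟨C.getD j [], ?_, rfl⟩
          rw [List.getD_eq_getElem _ _ hj, List.mem_drop_iff_getElem]
          exact ⟨j - (s + 1), by omega, by congr 1; omega⟩)
        exact ⟨h7.1, h7.2.trans (by simp [hjs])⟩)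
  omega

/-! ### The levels -/

theorem level_inv {V : Ver}
    (hmono : MonotoneRule (fun Z z => D Z z = true))
    (hrefl : ∀ (K : List (List Bool)) (y : List Bool), y ∈ K → D K y = true)
    (hclosed : ∀ (Z : List (List Bool)) (z : List Bool), (∀ y ∈ Z, y ∈ S) → D Z z = true → z ∈ S)
    (n p d : ℕ)
    (hchain : ∀ Z : List (List Bool), (∀ z ∈ Z, z.length ≤ n) → p < Z.length →
      ∃ (A : List (List Bool)) (z : List Bool) (B : List (List Bool)), Z = A ++ z :: B ∧
        D A z = true)
    (x : List Bool) (hG : ∀ u, Left V (x, u) ↔ Odd (leading S (G u)))
    {K i : ℕ} (hK : bnd p d ≤ K) {C : List (List Bool)} (hi : i < V.n x)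
    (hd : ∀ u : List Bool, (G u).length ≤ d)
    (hlen : ∀ u : List Bool, u.length = i + 1 → ∀ Z ∈ G u, ∀ z ∈ Z, z.length ≤ n)
    (h : Inv V x K i C) : Inv V x K (i + 1) (level (test G D) K C) := by
  have hsub := pstep_iter_sublist (test G D) K (ext C).length (ext C)
  have hlenE : ∀ u ∈ ext C, u.length = i + 1 := by
    intro u hu
    obtain ⟨v, hv, b, rfl⟩ := mem_ext.1 hu
    simp [h.len v hv]
  refine ⟨fun u hu => hlenE u (hsub.subset hu), (ext_sorted h.sorted).sublist hsub, ?_, ?_⟩
  · -- length
    have key : ∀ (k : ℕ) (E : List (List Bool)), (∀ u ∈ E, u.length = i + 1) →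
        E.length ≤ K + k → ((pstep (test G D) K)^[k] E).length ≤ K := by
      intro k
      induction k with
      | zero => intro E _ h2; simpa using h2
      | succ k ih =>
        intro E h1 h2
        rw [Function.iterate_succ_apply]
        refine ih _ (fun u hu => h1 u ((pstep_sublist _ K E).subset hu)) ?_
        unfold pstep
        split_ifs with h3
        · have := prune_length (test G D) (C := E) (test_complete hmono hrefl n p d hchain E
            (fun u _ => hd u) (fun u hu => hlen u (h1 u hu)) (by omega))
          omega
        · omega
    exact key _ _ hlenE (by omega)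
  · -- the maximal witness
    intro w hw hV hmax
    have hmemE : w.take (i + 1) ∈ ext C := by
      rw [mem_ext]
      refine ⟨w.take i, h.mem w hw hV hmax, w[i]'(by omega), ?_⟩
      rw [List.take_append_getElem]
    have hleft : ∀ u : List Bool, u.length = i + 1 →
        (num u ≤ num (w.take (i + 1)) ↔ Left V (x, u)) := by
      intro u hu
      constructor
      · intro h1
        exact ⟨w, hw, hV, by rw [hu]; exact h1⟩
      · rintro ⟨w', hw', hV', h1⟩
        simp only at hw' hV' h1
        rw [hu] at h1
        exact h1.trans (num_take_mono (by rw [hw, hw']) (hmax w' hw' hV') (i + 1))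
    have key : ∀ (k : ℕ) (E : List (List Bool)), (∀ u ∈ E, u.length = i + 1) →
        E.Pairwise (fun v w => num v < num w) → w.take (i + 1) ∈ E →
        w.take (i + 1) ∈ (pstep (test G D) K)^[k] E := by
      intro k
      induction k with
      | zero => intro E _ _ h2; simpa using h2
      | succ k ih =>
        intro E h1 h2 h3
        rw [Function.iterate_succ_apply]
        refine ih _ (fun u hu => h1 u ((pstep_sublist _ K E).subset hu))
          (h2.sublist (pstep_sublist _ K E)) ?_
        unfold pstep
        split_ifs with h4
        · rcases prune_cases (test G D) E with h5 | ⟨A, u, B, h5, h6, h7⟩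
          · rw [h5]; exact h3
          · rw [h7]
            subst h5
            have h8 : num u ≠ num (w.take (i + 1)) := test_sound (S := S) _ hclosed
              (fun v hv => (hleft v (h1 v hv)).trans (hG v)) h2 h6
            rw [List.mem_append, List.mem_cons] at h3
            rw [List.mem_append]
            rcases h3 with h3 | h3 | h3
            · exact Or.inl h3
            · exact absurd (congrArg num h3).symm h8
            · exact Or.inr h3
        · exact h3
    exact key _ _ hlenE (ext_sorted h.sorted) hmemE

theorem one_le_bnd (p d : ℕ) : 1 ≤ bnd p d := by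
  cases d with
  | zero => exact le_rfl
  | succ d => exact Nat.mul_pos (by omega) (by omega)

/-- The invariant holds at all levels. -/
theorem alg_inv {V : Ver}
    (hmono : MonotoneRule (fun Z z => D Z z = true))
    (hrefl : ∀ (K : List (List Bool)) (y : List Bool), y ∈ K → D K y = true)
    (hclosed : ∀ (Z : List (List Bool)) (z : List Bool), (∀ y ∈ Z, y ∈ S) → D Z z = true → z ∈ S)
    (n p d : ℕ)
    (hchain : ∀ Z : List (List Bool), (∀ z ∈ Z, z.length ≤ n) → p < Z.length →
      ∃ (A : List (List Bool)) (z : List Bool) (B : List (List Bool)), Z = A ++ z :: B ∧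
        D A z = true)
    (x : List Bool) (hG : ∀ u, Left V (x, u) ↔ Odd (leading S (G u)))
    {K : ℕ} (hK : bnd p d ≤ K) (hd : ∀ u : List Bool, (G u).length ≤ d)
    (hlen : ∀ u : List Bool, u.length ≤ V.n x → ∀ Z ∈ G u, ∀ z ∈ Z, z.length ≤ n) :
    ∀ i ≤ V.n x, Inv V x K i ((level (test G D) K)^[i] [[]]) := by
  intro i
  induction i with
  | zero =>
    intro _
    have := one_le_bnd p d
    refine ⟨by simp, by simp, by simp; omega, fun w _ _ _ => by simp⟩
  | succ i ih =>
    intro hi
    rw [Function.iterate_succ_apply']
    exact level_inv hmono hrefl hclosed n p d hchain x hG hK (by omega) hd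
      (fun u hu => hlen u (by omega)) (ih (by omega))

end Pool.Agent.H334R5.Nest
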