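import Pool.Agent.H334R5.Nest.Defs

/-!
# The combinatorial part: closed sets cannot realize long threshold patterns
-/

set_option autoImplicit false

namespace Pool.Agent.H334R5.Nest

/-! ### The number of leading entries -/

theorem leading_nil (S : Set (List Bool)) : leading S [] = 0 := rfl

theorem leading_pos {S : Set (List Bool)} {Z : List (List Bool)} {R : List (List (List Bool))}
    (h : ∀ y ∈ Z, y ∈ S) : leading S (Z :: R) = leading S R + 1 := by
  rw [leading, if_pos h]

theorem leading_neg {S : Set (List Bool)} {Z : List (List Bool)} {R : List (List (List Bool))}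
    (h : ¬ ∀ y ∈ Z, y ∈ S) : leading S (Z :: R) = 0 := by
  rw [leading, if_neg h]

/-- From strings to lists of strings. -/
theorem chain_lists {D : List (List Bool) → List Bool → Prop} (hmono : MonotoneRule D) (n p : ℕ)
    (hchain : ∀ Z : List (List Bool), (∀ z ∈ Z, z.length ≤ n) → p < Z.length →
      ∃ (A : List (List Bool)) (z : List Bool) (B : List (List Bool)), Z = A ++ z :: B ∧ D A z)
    (Zs : List (List (List Bool))) (hlen : ∀ Z ∈ Zs, ∀ z ∈ Z, z.length ≤ n)
    (hp : p < Zs.length) :
    ∃ (As : List (List (List Bool))) (Z : List (List Bool)) (Bs : List (List (List Bool))),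
      Zs = As ++ Z :: Bs ∧ ∀ y ∈ Z, D As.flatten y := by
  by_contra hcon
  push Not at hcon
  have key : ∀ As : List (List (List Bool)), As <+: Zs → ∃ Y : List (List Bool),
      Y.length = As.length ∧ Y ⊆ As.flatten ∧
        ∀ (A : List (List Bool)) (z : List Bool) (B : List (List Bool)), Y = A ++ z :: B →
          ¬ D A z := by
    intro As
    induction As using List.reverseRecOn with
    | nil =>
      intro _
      refine ⟨[], rfl, by simp, ?_⟩
      intro A z B h
      simp at h
    | append_singleton As Z ih =>
      intro hpre
      obtain ⟨Bs, hBs⟩ := hpre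
      obtain ⟨Y, hY1, hY2, hY3⟩ := ih ⟨Z :: Bs, by rw [← hBs]; simp⟩
      obtain ⟨y, hy, hyD⟩ := hcon As Z Bs (by rw [← hBs]; simp)
      refine ⟨Y ++ [y], by simp [hY1], ?_, ?_⟩
      · intro z hz
        rw [List.mem_append, List.mem_singleton] at hz
        rw [List.flatten_append, List.mem_append]
        rcases hz with hz | rfl
        · exact Or.inl (hY2 hz)
        · right; simpa using hy
      · intro A z B h
        rcases List.eq_nil_or_concat B with rfl | ⟨B', b, rfl⟩
        · have h1 : Y = A ∧ [y] = [z] := List.append_inj' h (by simp)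
          obtain ⟨rfl, h2⟩ := h1
          obtain rfl : y = z := by simpa using h2
          intro hD
          exact hyD (hmono _ _ _ hY2 hD)
        · have h1 : Y ++ [y] = (A ++ z :: B') ++ [b] := by rw [h]; simp
          have h2 := (List.append_inj' h1 (by simp)).1
          exact hY3 A z B' h2
  obtain ⟨Y, hY1, hY2, hY3⟩ := key Zs (List.prefix_refl _)
  obtain ⟨A, z, B, h1, h2⟩ := hchain Y (by
    intro z hz
    obtain ⟨Z, hZ, hz'⟩ := List.mem_flatten.1 (hY2 hz)
    exact hlen Z hZ z hz') (by omega)
  exact hY3 A z B h1 h2

/-- the length of threshold patterns which can be realized -/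
def bnd (p : ℕ) : ℕ → ℕ
  | 0 => 1
  | d + 1 => (p + 1) * (bnd p d + 1)

/-- A list of lists `R` is saturated with respect to `K`. -/
def Sat (D : List (List Bool) → List Bool → Prop) (K : List (List Bool)) :
    List (List (List Bool)) → Prop
  | [] => True
  | Z :: R => (∀ y ∈ Z, D K y) → (∀ y ∈ Z, y ∈ K) ∧ Sat D K R

/-- A long block without bad positions. -/
theorem exists_block (bad : ℕ → Prop) [DecidablePred bad] (N : ℕ) : ∀ (p a m : ℕ),
    ((Finset.Ico a m).filter bad).card ≤ p → a + (p + 1) * (N + 1) ≤ m →
    ∃ b, a ≤ b ∧ b + (N + 1) ≤ m ∧ ∀ j, b ≤ j → j < b + (N + 1) → ¬ bad j := by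
  intro p
  induction p with
  | zero =>
    intro a m h1 h2
    refine ⟨a, le_rfl, by omega, fun j hj1 hj2 hbad => ?_⟩
    have : j ∈ (Finset.Ico a m).filter bad := by
      rw [Finset.mem_filter, Finset.mem_Ico]
      exact ⟨⟨hj1, by omega⟩, hbad⟩
    have h3 := Finset.card_pos.2 ⟨j, this⟩
    omega
  | succ p ih =>
    intro a m h1 h2
    by_cases h : ∀ j, a ≤ j → j < a + (N + 1) → ¬ bad j
    · refine ⟨a, le_rfl, ?_, h⟩
      have : (p + 1 + 1) * (N + 1) = (p + 1) * (N + 1) + (N + 1) := by ring
      omega
    · push Not at h
      obtain ⟨j0, hj1, hj2, hj3⟩ := h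
      have hs : (p + 1 + 1) * (N + 1) = (p + 1) * (N + 1) + (N + 1) := by ring
      obtain ⟨b, hb1, hb2, hb3⟩ := ih (a + (N + 1)) m (by
        have hlt : ((Finset.Ico (a + (N + 1)) m).filter bad).card <
            ((Finset.Ico a m).filter bad).card := by
          apply Finset.card_lt_card
          rw [Finset.ssubset_iff_of_subset]
          · refine ⟨j0, ?_, ?_⟩
            · rw [Finset.mem_filter, Finset.mem_Ico]
              exact ⟨⟨hj1, by omega⟩, hj3⟩
            · rw [Finset.mem_filter, Finset.mem_Ico]
              omega
          · intro j hj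
            rw [Finset.mem_filter, Finset.mem_Ico] at hj ⊢
            exact ⟨⟨by omega, hj.1.2⟩, hj.2⟩
        omega) (by omega)
      exact ⟨b, by omega, hb2, hb3⟩

/-- The combinatorial lemma. -/
theorem no_long_pattern {D : List (List Bool) → List Bool → Prop} (hmono : MonotoneRule D)
    (hrefl : ∀ (K : List (List Bool)) (y : List Bool), y ∈ K → D K y) (n p : ℕ)
    (hchain : ∀ Z : List (List Bool), (∀ z ∈ Z, z.length ≤ n) → p < Z.length →
      ∃ (A : List (List Bool)) (z : List Bool) (B : List (List Bool)), Z = A ++ z :: B ∧ D A z) :
    ∀ (d k : ℕ) (Q : ℕ → List (List (List Bool))) (o : Bool) (K : ℕ → List (List Bool)),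
      (∀ j < k, (Q j).length ≤ d) → (∀ j < k, ∀ Z ∈ Q j, ∀ z ∈ Z, z.length ≤ n) →
      (∀ t, 1 ≤ t → t < k → ∀ j < k, Sat D (K t) (Q j) ∧
        (Odd (leading {y | y ∈ K t} (Q j)) ↔ (decide (j < t) ^^ o) = true)) →
      k ≤ bnd p d := by
  intro d
  induction d with
  | zero =>
    intro k Q o K hlen _ h
    by_contra hk
    simp only [bnd, not_le] at hk
    have hQ : ∀ j < k, Q j = [] := fun j hj => List.length_eq_zero_iff.1 (by
      have := hlen j hj; omega)
    have h0 := (h 1 le_rfl hk 0 (by omega)).2
    have h1 := (h 1 le_rfl hk 1 (by omega)).2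
    rw [hQ 0 (by omega), leading_nil] at h0
    rw [hQ 1 (by omega), leading_nil] at h1
    cases o <;> simp at h0 h1
  | succ d ih =>
    -- the case `o = false`
    have main : ∀ (k : ℕ) (Q : ℕ → List (List (List Bool))) (K : ℕ → List (List Bool)),
        (∀ j < k, (Q j).length ≤ d + 1) → (∀ j < k, ∀ Z ∈ Q j, ∀ z ∈ Z, z.length ≤ n) →
        (∀ t, 1 ≤ t → t < k → ∀ j < k, Sat D (K t) (Q j) ∧
          (Odd (leading {y | y ∈ K t} (Q j)) ↔ j < t)) →
        k ≤ bnd p (d + 1) := by
      intro k Q K hlen hstr h
      by_contra hk
      simp only [bnd, not_le] at hk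
      -- heads and tails
      have hQ : ∀ j, j + 1 < k → ∃ Z R, Q j = Z :: R := by
        intro j hj
        have h1 := (h (j + 1) (by omega) hj j (by omega)).2.2 (by omega)
        cases hq : Q j with
        | nil => rw [hq, leading_nil] at h1; simp at h1
        | cons Z R => exact ⟨Z, R, rfl⟩
      set Zf : ℕ → List (List Bool) := fun j => (Q j).headD [] with hZf
      set Q1 : ℕ → List (List (List Bool)) := fun j => (Q j).tail with hQ1
      have hQ' : ∀ j, j + 1 < k → Q j = Zf j :: Q1 j := by
        intro j hj
        obtain ⟨Z, R, hq⟩ := hQ j hj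
        simp [hZf, hQ1, hq]
      classical
      set bad : ℕ → Prop := fun j => ¬ ∀ y ∈ Zf j, D (((List.range j).map Zf).flatten) y with hbad
      have hcount : ((Finset.Ico 0 (k - 1)).filter bad).card ≤ p := by
        by_contra hcon
        rw [not_le] at hcon
        have hL : ((List.range (k - 1)).filter (fun j => decide (bad j))).length =
            ((Finset.Ico 0 (k - 1)).filter bad).card := by
          rw [← List.toFinset_card_of_nodup (List.nodup_range.filter _)]
          congr 1
          ext j
          simp
        obtain ⟨As, Z, Bs, h1, h2⟩ := chain_lists hmono n p hchain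
          (((List.range (k - 1)).filter (fun j => decide (bad j))).map Zf) (by
            intro Z hZ z hz
            rw [List.mem_map] at hZ
            obtain ⟨j, hj, rfl⟩ := hZ
            have hj' := (List.mem_filter.1 hj).1
            rw [List.mem_range] at hj'
            refine hstr j (by omega) (Zf j) ?_ z hz
            rw [hQ' j (by omega)]
            simp) (by rw [List.length_map, hL]; exact hcon)
        rw [List.map_eq_append_iff] at h1
        obtain ⟨P1, P2', hP1, rfl, h3⟩ := h1
        rw [List.map_eq_cons_iff] at h3
        obtain ⟨v, P2, rfl, rfl, rfl⟩ := h3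
        have hvmem : v ∈ (List.range (k - 1)).filter (fun j => decide (bad j)) := by
          rw [hP1]; simp
        have hvbad : bad v := by
          have := (List.mem_filter.1 hvmem).2
          simpa using this
        apply hvbad
        intro y hy
        refine hmono _ _ _ ?_ (h2 y hy)
        intro z hz
        rw [List.mem_flatten] at hz ⊢
        obtain ⟨l, hl, hz⟩ := hz
        rw [List.mem_map] at hl
        obtain ⟨w, hw, rfl⟩ := hl
        refine ⟨Zf w, ?_, hz⟩
        rw [List.mem_map]
        refine ⟨w, ?_, rfl⟩
        rw [List.mem_range]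
        have hsort : ((List.range (k - 1)).filter (fun j => decide (bad j))).Pairwise (· < ·) :=
          List.pairwise_lt_range.filter _
        rw [hP1, List.pairwise_append] at hsort
        exact hsort.2.2 w hw v (by simp)
      obtain ⟨b, -, hb2, hb3⟩ := exists_block bad (bnd p d) p 0 (k - 1) hcount (by omega)
      -- all heads in the block are in `K`
      have hin : ∀ t, b + 1 ≤ t → t < b + (bnd p d + 1) → ∀ i < b + (bnd p d + 1),
          ∀ y ∈ Zf i, y ∈ K t := by
        intro t ht1 ht2 i
        induction i using Nat.strong_induction_on with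
        | _ i ihi =>
          intro hi
          have h1 := h t (by omega) (by omega) i (by omega)
          rw [hQ' i (by omega)] at h1
          by_cases hit : i < t
          · have h2 := h1.2.2 hit
            by_contra hcon
            rw [leading_neg (by simpa using hcon)] at h2
            simp at h2
          · have hgood := hb3 i (by omega) hi
            rw [hbad] at hgood
            simp only [not_not] at hgood
            refine (h1.1 fun y hy => ?_).1
            refine hmono _ _ _ ?_ (hgood y hy)
            intro z hz
            rw [List.mem_flatten] at hz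
            obtain ⟨l, hl, hz⟩ := hz
            rw [List.mem_map] at hl
            obtain ⟨w, hw, rfl⟩ := hl
            rw [List.mem_range] at hw
            exact ihi w hw (by omega) z hz
      have := ih (bnd p d + 1) (fun j => Q1 (b + j)) true (fun t => K (b + t)) (by
          intro j hj
          have h1 := hlen (b + j) (by omega)
          rw [hQ' (b + j) (by omega)] at h1
          simpa using h1) (by
          intro j hj Z hZ z hz
          refine hstr (b + j) (by omega) Z ?_ z hz
          rw [hQ' (b + j) (by omega)]
          exact List.mem_cons_of_mem _ hZ) (by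
          intro t ht1 ht2 j hj
          have h1 := h (b + t) (by omega) (by omega) (b + j) (by omega)
          have h2 := hin (b + t) (by omega) (by omega) (b + j) (by omega)
          rw [hQ' (b + j) (by omega)] at h1
          have h3 : leading {y | y ∈ K (b + t)} (Zf (b + j) :: Q1 (b + j)) =
            leading {y | y ∈ K (b + t)} (Q1 (b + j)) + 1 := leading_pos h2
          rw [h3] at h1
          refine ⟨?_, ?_⟩
          · exact (h1.1 fun y hy => hrefl _ _ (h2 y hy)).2
          · rw [Nat.odd_add_one] at h1
            have h4 := h1.2
            by_cases hjt : j < t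
            · simp only [hjt, decide_true, Bool.xor_true, Bool.not_true, Bool.false_eq_true,
                iff_false]
              exact h4.2 (by omega)
            · simp only [hjt, decide_false, Bool.xor_true, Bool.not_false, iff_true]
              by_contra hodd
              exact hjt (by have := h4.1 hodd; omega))
      omega
    intro k Q o K hlen hstr h
    cases o with
    | false =>
      exact main k Q K hlen hstr (fun t ht1 ht2 j hj => by
        have := h t ht1 ht2 j hj
        simpa using this)
    | true =>
      refine main k (fun j => Q (k - 1 - j)) (fun t => K (k - t))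
        (fun j hj => hlen _ (by omega)) (fun j hj => hstr _ (by omega))
        (fun t ht1 ht2 j hj => ?_)
      have h1 := h (k - t) (by omega) (by omega) (k - 1 - j) (by omega)
      refine ⟨h1.1, h1.2.trans ?_⟩
      by_cases hjt : j < t
      · have : ¬ (k - 1 - j < k - t) := by omega
        simp [this, hjt]
      · have : k - 1 - j < k - t := by omega
        simp [this, hjt]

end Pool.Agent.H334R5.Nest
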