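import Pool.Agent.H334R5.Nest.Main

/-!
# Sets closed under a rule with short chains are not hard for `NP`, unless `P = NP`
-/

set_option autoImplicit false

namespace Pool.Agent.H334R5.Nest

open Pool.Agent.NPC
open Pool.Agent.H251R5.PQ (Ver t_PAD)
open Pool.Agent.H334R5.Clo (Left left_inNPP alg_correct)

/-- The main theorem, for one verifier. -/
theorem main_left {D' : List (List Bool) → List Bool → Prop}
    (hP : InPP (fun t : List (List Bool) × List Bool => D' t.1 t.2))
    (hmono : MonotoneRule D') (hchain : ShortChains D') {S : Set (List Bool)}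
    (hclosed : ClosedUnder D' S) {A : Set (List Bool)} {V : Ver}
    (hV : ∀ x, x ∈ A ↔ ∃ w : List Bool, w.length = V.n x ∧ V.V x w = true)
    {d : ℕ} (hred : NestedConjReduces d (lang (Left V)) S) : InP A := by
  obtain ⟨W, hW, hWD⟩ := hP.exists_test
  -- the rule as a polynomial-time test
  have hD : ∀ Z z, (Z.any (fun y => decide (y = z)) ||
      decide (W (bits ((Z, z) : List (List Bool) × List Bool)) = [true])) = true ↔
      (z ∈ Z ∨ D' Z z) := fun Z z => by
    rw [Bool.or_eq_true, decide_eq_true_eq, ← hWD (Z, z), List.any_eq_true]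
    simp
  have pD : Poly (fun t : List (List Bool) × List Bool => t.1.any (fun y => decide (y = t.2)) ||
      decide (W (bits ((t.1, t.2) : List (List Bool) × List Bool)) = [true])) := by
    have h1 : PC (bits : List (List Bool) × List Bool → List Bool) (fun x : List Bool => x)
        (fun t => W (bits t)) := by
      obtain ⟨c, p, h⟩ := H642R2.TMSim.polyTime_toPC hW
      exact ⟨c, p, fun a => h (bits a)⟩
    have h2 : Poly (fun t : List (List Bool) × List Bool => W (bits t)) :=
      PC.comp (g := fun x => x) (f := fun t : List (List Bool) × List Bool => W (bits t))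
        PC.rawIn h1
    refine Poly.or ?_ (Poly.decide_eq h2 (NPC.Poly.const _))
    exact Poly.any (p := fun (t : List (List Bool) × List Bool) y => decide (y = t.2))
      (Poly.fst Poly.id) (Poly.decide_eq (Poly.snd Poly.id) (Poly.snd (Poly.fst Poly.id)))
  -- the verifier
  obtain ⟨r, hr, hrS⟩ := hred
  have pr : Poly (fun t : List Bool × List Bool => r (bits t)) := by
    obtain ⟨c, p, h⟩ := H642R2.TMSim.polyTime_toPC hr
    exact ⟨c, p, fun a => h (bits a)⟩
  have hG : ∀ x u : List Bool, Left V (x, u) ↔
      Odd (leading S (r (bits ((x, u) : List Bool × List Bool)))) := fun x u => by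
    rw [← (hrS _).2, bits_mem_lang]
  obtain ⟨q, hq⟩ := pr.sz_le
  obtain ⟨p, hp⟩ := hchain
  -- the bounds
  have uN : UPoly (fun x : List Bool => q.eval ((4 * x.length + 1) + (4 * V.n x + 2))) :=
    UPoly.eval (UPoly.add (UPoly.add (UPoly.mul (UPoly.const 4) (UPoly.length Poly.id))
      (UPoly.const 1)) (UPoly.add (UPoly.mul (UPoly.const 4) V.hn) (UPoly.const 2))) q
  have uK : UPoly (fun x : List Bool =>
      bnd (p.eval (q.eval ((4 * x.length + 1) + (4 * V.n x + 2)))) d) :=
    bnd_upoly (UPoly.eval uN p) d
  set N : List Bool → ℕ := fun x => q.eval ((4 * x.length + 1) + (4 * V.n x + 2)) with hNdef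
  set K : List Bool → ℕ := fun x => bnd (p.eval (N x)) d with hKdef
  set G : List Bool → List Bool → List (List (List Bool)) :=
    fun x u => r (bits ((x, u) : List Bool × List Bool)) with hGdef
  set D : List (List Bool) → List Bool → Bool := fun Z z => Z.any (fun y => decide (y = z)) ||
    decide (W (bits ((Z, z) : List (List Bool) × List Bool)) = [true]) with hDdef
  have hlen : ∀ x u : List Bool, u.length ≤ V.n x → ∀ Z ∈ G x u, ∀ z ∈ Z, z.length ≤ N x := by
    intro x u hu Z hZ z hz
    have h1 := hq (x, u)
    have h2 : sz Z < sz (r (bits ((x, u) : List Bool × List Bool))) := sz_le_of_mem hZ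
    have h3 : sz z < sz Z := sz_le_of_mem hz
    have h4 := length_lt_sz z
    have h5 : sz ((x, u) : List Bool × List Bool) ≤ (4 * x.length + 1) + (4 * V.n x + 2) := by
      have e1 := sz_listBool_le x
      have e2 := sz_listBool_le u
      simp only [sz_pair]
      omega
    have h6 := eval_mono q h5
    show z.length ≤ q.eval ((4 * x.length + 1) + (4 * V.n x + 2))
    omega
  have hmono' : MonotoneRule (fun Z z => D Z z = true) := by
    intro Z Z' z hZ h
    have h' : D Z z = true := h
    show D Z' z = true
    rw [hD] at h' ⊢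
    rcases h' with h' | h'
    · exact Or.inl (hZ h')
    · exact Or.inr (hmono _ _ _ hZ h')
  have hrefl' : ∀ (K : List (List Bool)) (y : List Bool), y ∈ K → D K y = true := by
    intro K y hy
    rw [hD]
    exact Or.inl hy
  have hclosed' : ∀ (Z : List (List Bool)) (z : List Bool), (∀ y ∈ Z, y ∈ S) →
      D Z z = true → z ∈ S := by
    intro Z z hZ h
    rw [hD] at h
    rcases h with h | h
    · exact hZ z h
    · exact hclosed Z z hZ h
  have hchain' : ∀ x : List Bool, ∀ Z : List (List Bool), (∀ z ∈ Z, z.length ≤ N x) →
      p.eval (N x) < Z.length →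
      ∃ (A : List (List Bool)) (z : List Bool) (B : List (List Bool)), Z = A ++ z :: B ∧
        D A z = true := by
    intro x Z h1 h2
    obtain ⟨A, z, B, h3, h4⟩ := hp (N x) Z h1 h2
    exact ⟨A, z, B, h3, (hD A z).2 (Or.inr h4)⟩
  have hinv : ∀ x : List Bool, ∀ i ≤ V.n x,
      Clo.Inv V x (K x) i ((level (test (G x) D) (K x))^[i] [[]]) :=
    fun x => alg_inv hmono' hrefl' hclosed' (N x) (p.eval (N x)) d (hchain' x) x (hG x)
      (le_refl (bnd (p.eval (N x)) d)) (fun u => (hrS _).1) (hlen x)
  -- the algorithm is polynomial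
  have pG : Poly (fun t : List Bool × List Bool => G t.1 t.2) := pr
  have hlevel := poly_level (T := fun x => test (G x) D) (poly_test (D := D) pG pD) uK.toPoly
  obtain ⟨qn, hqn⟩ := V.hn.sz_le
  obtain ⟨qk, hqk⟩ := uK.sz_le
  have palg : Poly (fun x : List Bool => (level (test (G x) D) (K x))^[V.n x] [[]]) := by
    refine (Poly.iterLen (l := fun x : List Bool => List.replicate (V.n x) ())
      (s := fun _ => [[]]) (F := fun x C => level (test (G x) D) (K x) C) V.hn (NPC.Poly.const _)
      hlevel (qk * (4 * qn + 2) + 1) ?_).congr fun x => by rw [List.length_replicate]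
    intro x k hk
    rw [List.length_replicate] at hk
    have h1 := hinv x k hk
    have h2 := sz_le_length_mul ((level (test (G x) D) (K x))^[k] [[]]) (4 * V.n x + 1) (by
      intro u hu
      have := h1.len u hu
      have := sz_listBool_le u
      omega)
    have h3 := h1.short
    have h4 := length_lt_sz (List.replicate (V.n x) ())
    have h5 := length_lt_sz (List.replicate (K x) ())
    rw [List.length_replicate] at h4 h5
    have h6 := hqn x
    have h7 := hqk x
    have h8 : K x ≤ qk.eval (sz x) := by omega
    have h9 : V.n x ≤ qn.eval (sz x) := by omega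
    simp only [Polynomial.eval_add, Polynomial.eval_mul, Polynomial.eval_one,
      Polynomial.eval_ofNat]
    calc _ ≤ _ := h2
      _ ≤ qk.eval (sz x) * (4 * qn.eval (sz x) + 2) + 1 := by
        apply Nat.add_le_add_right
        exact Nat.mul_le_mul (h3.trans h8) (by omega)
  have pfin : Poly (fun x : List Bool =>
      ((level (test (G x) D) (K x))^[V.n x] [[]]).any (fun w => V.V x w)) :=
    Poly.any (p := fun x w => V.V x w) palg V.hV
  refine ⟨_, polyTime_of_poly pfin, fun x => ?_⟩
  rw [hV x, alg_correct (hinv x (V.n x) le_rfl)]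
  simp

end Pool.Agent.H334R5.Nest
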