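import Pool.Agent.H334R5.Nest.Comb

/-!
# The inference procedure

An item `(b, N)` stands for the constraint that the number of leading entries of `N` contained in
`S` is odd (if `b = true`), respectively even (if `b = false`).
-/

set_option autoImplicit false

namespace Pool.Agent.H334R5.Nest

/-- An item: a parity and a list of lists of strings. -/
abbrev Item : Type := Bool × List (List (List Bool))

variable (D : List (List Bool) → List Bool → Bool)

/-- The head of the item is known to be contained in `S`. -/
def canAdv (K : List (List Bool)) (it : Item) : Bool :=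
  it.2.head?.elim false (fun Z => it.1 || Z.all (fun y => D K y))

/-- Remove the head of the item if it is known to be contained in `S`. -/
def adv (K : List (List Bool)) (it : Item) : Item :=
  bif canAdv D K it then (!it.1, it.2.tail) else it

/-- The strings which become known. -/
def gain (K : List (List Bool)) (it : Item) : List (List Bool) :=
  bif canAdv D K it then it.2.head?.elim [] (fun Z => Z) else []

/-- One round: `K` is the list of known elements of `S`. -/
def round (s : List (List Bool) × List Item) : List (List Bool) × List Item :=
  (s.1 ++ s.2.flatMap (gain D s.1), s.2.map (adv D s.1))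

/-- All the lists of the items. -/
def work (l : List Item) : List (List (List Bool)) := l.flatMap Prod.snd

/-- The inference procedure. -/
def run (l : List Item) : List (List Bool) × List Item := (round D)^[(work l).length] ([], l)

/-- Some item is contradictory. -/
def contra (l : List Item) : Bool := l.any (fun it => it.1 && it.2.head?.elim true (fun _ => false))

/-! ### Soundness -/

/-- The item is satisfied by `S`. -/
def Good (S : Set (List Bool)) (it : Item) : Prop := Odd (leading S it.2) ↔ it.1 = true

variable {D} {S : Set (List Bool)}

theorem good_adv (hclosed : ∀ (Z : List (List Bool)) (z : List Bool), (∀ y ∈ Z, y ∈ S) →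
    D Z z = true → z ∈ S) {K : List (List Bool)} (hK : ∀ y ∈ K, y ∈ S) {it : Item}
    (h : Good S it) : Good S (adv D K it) ∧ ∀ y ∈ gain D K it, y ∈ S := by
  obtain ⟨b, N⟩ := it
  unfold adv gain canAdv
  cases N with
  | nil => simpa using h
  | cons Z R =>
    simp only [List.head?_cons, Option.elim_some, List.tail_cons]
    cases hc : (b || Z.all (fun y => D K y)) with
    | false => simpa using h
    | true =>
      simp only [cond_true]
      have hZ : ∀ y ∈ Z, y ∈ S := by
        rw [Bool.or_eq_true] at hc
        rcases hc with hb | hc
        · by_contra hcon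
          unfold Good at h
          simp only at h
          rw [leading_neg hcon, hb] at h
          simp at h
        · rw [List.all_eq_true] at hc
          exact fun y hy => hclosed K y hK (hc y hy)
      refine ⟨?_, hZ⟩
      unfold Good at h ⊢
      simp only at h ⊢
      rw [leading_pos hZ, Nat.odd_add_one] at h
      cases b with
      | false => simp only [Bool.not_false, iff_true]; by_contra hcon; simpa using h.1 hcon
      | true =>
        simp only [Bool.not_true, Bool.false_eq_true, iff_false]
        exact h.2 rfl

theorem round_sound (hclosed : ∀ (Z : List (List Bool)) (z : List Bool), (∀ y ∈ Z, y ∈ S) →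
    D Z z = true → z ∈ S) {s : List (List Bool) × List Item} (hK : ∀ y ∈ s.1, y ∈ S)
    (hit : ∀ it ∈ s.2, Good S it) :
    (∀ y ∈ (round D s).1, y ∈ S) ∧ ∀ it ∈ (round D s).2, Good S it := by
  unfold round
  constructor
  · intro y hy
    simp only [List.mem_append, List.mem_flatMap] at hy
    rcases hy with hy | ⟨it, hit', hy⟩
    · exact hK y hy
    · exact (good_adv hclosed hK (hit it hit')).2 y hy
  · intro it hit'
    simp only [List.mem_map] at hit'
    obtain ⟨it', h1, rfl⟩ := hit'
    exact (good_adv hclosed hK (hit it' h1)).1

theorem iter_sound (hclosed : ∀ (Z : List (List Bool)) (z : List Bool), (∀ y ∈ Z, y ∈ S) →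
    D Z z = true → z ∈ S) (k : ℕ) : ∀ {s : List (List Bool) × List Item},
    (∀ y ∈ s.1, y ∈ S) → (∀ it ∈ s.2, Good S it) →
    (∀ y ∈ ((round D)^[k] s).1, y ∈ S) ∧ ∀ it ∈ ((round D)^[k] s).2, Good S it := by
  induction k with
  | zero => intro s h1 h2; exact ⟨h1, h2⟩
  | succ k ih =>
    intro s h1 h2
    rw [Function.iterate_succ_apply]
    have h := round_sound hclosed h1 h2
    exact ih h.1 h.2

/-- Soundness. -/
theorem run_sound (hclosed : ∀ (Z : List (List Bool)) (z : List Bool), (∀ y ∈ Z, y ∈ S) →
    D Z z = true → z ∈ S) {l : List Item} (hit : ∀ it ∈ l, Good S it) :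
    contra (run D l).2 = false := by
  have h := (iter_sound hclosed (work l).length (s := ([], l)) (by simp) hit).2
  rw [Bool.eq_false_iff]
  intro hc
  unfold contra at hc
  rw [List.any_eq_true] at hc
  obtain ⟨⟨b, N⟩, h1, h2⟩ := hc
  have h3 := h _ h1
  cases N with
  | nil =>
    unfold Good at h3
    simp only [leading_nil] at h3
    simp only [List.head?_nil, Option.elim_none, Bool.and_true] at h2
    rw [h2] at h3
    simp at h3
  | cons Z R => simp at h2

/-! ### Completeness -/

/-- The relation between an item at the start and a later item. -/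
def Rel (K : List (List Bool)) (it0 it : Item) : Prop :=
  ∃ M : List (List (List Bool)), it0.2 = M ++ it.2 ∧ (∀ Z ∈ M, ∀ y ∈ Z, y ∈ K) ∧
    it.1 = (it0.1 ^^ decide (Odd M.length))

theorem rel_adv {K K' : List (List Bool)} {it0 it : Item} (h : Rel K it0 it) (hK : K ⊆ K')
    (hg : gain D K it ⊆ K') : Rel K' it0 (adv D K it) := by
  obtain ⟨M, h1, h2, h3⟩ := h
  obtain ⟨b, N⟩ := it
  unfold adv
  unfold gain at hg
  cases hc : canAdv D K (b, N) with
  | false =>
    simp only [cond_false]
    exact ⟨M, h1, fun Z hZ y hy => hK (h2 Z hZ y hy), h3⟩
  | true =>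
    rw [hc] at hg
    simp only [cond_true] at hg ⊢
    cases N with
    | nil => simp [canAdv] at hc
    | cons Z R =>
      simp only [List.head?_cons, Option.elim_some] at hg
      refine ⟨M ++ [Z], by simpa using h1, ?_, ?_⟩
      · intro Y hY y hy
        rw [List.mem_append, List.mem_singleton] at hY
        rcases hY with hY | rfl
        · exact hK (h2 Y hY y hy)
        · exact hg hy
      · simp only at h3 ⊢
        rw [h3, List.length_append, List.length_singleton]
        by_cases ho : Odd M.length
        · have : ¬ Odd (M.length + 1) := by rw [Nat.odd_add_one]; simpa using ho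
          simp [ho, this]
        · have : Odd (M.length + 1) := by rw [Nat.odd_add_one]; exact ho
          simp [ho, this]

theorem rel_round {l0 : List Item} {s : List (List Bool) × List Item}
    (h : ∀ it0 ∈ l0, ∃ it ∈ s.2, Rel s.1 it0 it) :
    ∀ it0 ∈ l0, ∃ it ∈ (round D s).2, Rel (round D s).1 it0 it := by
  intro it0 h0
  obtain ⟨it, h1, h2⟩ := h it0 h0
  refine ⟨adv D s.1 it, List.mem_map_of_mem h1, rel_adv h2 ?_ ?_⟩
  · intro y hy
    exact List.mem_append_left _ hy
  · intro y hy
    exact List.mem_append_right _ (List.mem_flatMap.2 ⟨it, h1, hy⟩)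

theorem rel_iter {l0 : List Item} (k : ℕ) : ∀ {s : List (List Bool) × List Item},
    (∀ it0 ∈ l0, ∃ it ∈ s.2, Rel s.1 it0 it) →
    ∀ it0 ∈ l0, ∃ it ∈ ((round D)^[k] s).2, Rel ((round D)^[k] s).1 it0 it := by
  induction k with
  | zero => intro s h; exact h
  | succ k ih =>
    intro s h
    rw [Function.iterate_succ_apply]
    exact ih (rel_round h)

/-- Nothing can be advanced. -/
def Stable (D : List (List Bool) → List Bool → Bool) (s : List (List Bool) × List Item) : Prop :=
  ∀ it ∈ s.2, canAdv D s.1 it = false

theorem round_stable {s : List (List Bool) × List Item} (h : Stable D s) : round D s = s := by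
  obtain ⟨K, l⟩ := s
  unfold round
  have h1 : l.flatMap (gain D K) = [] := by
    rw [List.flatMap_eq_nil_iff]
    intro it hit
    unfold gain
    rw [h it hit]
    rfl
  have h2 : l.map (adv D K) = l := by
    conv_rhs => rw [← List.map_id l]
    apply List.map_congr_left
    intro it hit
    unfold adv
    rw [h it hit]
    rfl
  simp only [h1, h2, List.append_nil]

theorem work_adv_le (K : List (List Bool)) (l : List Item) :
    (work (l.map (adv D K))).length ≤ (work l).length := by
  unfold work
  induction l with
  | nil => simp
  | cons it l ih =>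
    simp only [List.map_cons, List.flatMap_cons, List.length_append]
    have : (adv D K it).2.length ≤ it.2.length := by
      unfold adv
      cases canAdv D K it with
      | false => exact le_rfl
      | true => simp
    omega

theorem work_adv_lt (K : List (List Bool)) (l : List Item) (h : ∃ it ∈ l, canAdv D K it = true) :
    (work (l.map (adv D K))).length < (work l).length := by
  obtain ⟨it, hit, hc⟩ := h
  obtain ⟨l1, l2, rfl⟩ := List.append_of_mem hit
  have h1 := work_adv_le (D := D) K l1
  have h2 := work_adv_le (D := D) K l2
  unfold work at h1 h2 ⊢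
  have h3 : (adv D K it).2.length < it.2.length := by
    unfold adv
    rw [hc]
    obtain ⟨b, N⟩ := it
    cases N with
    | nil => simp [canAdv] at hc
    | cons Z R => simp
  simp only [List.map_append, List.map_cons, List.flatMap_append, List.flatMap_cons,
    List.length_append]
  omega

theorem iter_stable (m : ℕ) : ∀ {s : List (List Bool) × List Item}, (work s.2).length ≤ m →
    Stable D ((round D)^[m] s) := by
  induction m with
  | zero =>
    intro s h it hit
    have h1 : work s.2 = [] := List.length_eq_zero_iff.1 (by omega)
    have h2 : it.2 = [] := by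
      unfold work at h1
      rw [List.flatMap_eq_nil_iff] at h1
      exact h1 it hit
    unfold canAdv
    rw [h2]
    rfl
  | succ m ih =>
    intro s h
    by_cases hs : Stable D s
    · have : (round D)^[m + 1] s = s := Function.iterate_fixed (round_stable hs) _
      rw [this]
      exact hs
    · rw [Function.iterate_succ_apply]
      refine ih ?_
      unfold Stable at hs
      push Not at hs
      obtain ⟨it, hit, hc⟩ := hs
      have := work_adv_lt (D := D) s.1 s.2 ⟨it, hit, by simpa using hc⟩
      show (work (s.2.map (adv D s.1))).length ≤ m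
      omega

/-- Saturation of the original lists. -/
theorem sat_of_rel {K : List (List Bool)}
    (hrefl : ∀ (K : List (List Bool)) (y : List Bool), y ∈ K → D K y = true)
    {it0 it : Item} (h : Rel K it0 it) (hs : canAdv D K it = false)
    (hc : (it.1 && it.2.head?.elim true (fun _ => false)) = false) :
    Sat (fun Z z => D Z z = true) K it0.2 ∧ (Odd (leading {y | y ∈ K} it0.2) ↔ it0.1 = true) := by
  obtain ⟨b, N⟩ := it
  obtain ⟨b0, N0⟩ := it0
  obtain ⟨M, h1, h2, h3⟩ := h
  simp only at h1 h3
  subst h1
  -- the final parity is `false`
  have hb : b = false := by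
    cases N with
    | nil => simpa using hc
    | cons Z R =>
      simp only [canAdv, List.head?_cons, Option.elim_some, Bool.or_eq_false_iff] at hs
      exact hs.1
  -- the head of the rest is not derivable
  have hN : Sat (fun Z z => D Z z = true) K N ∧ leading {y | y ∈ K} N = 0 := by
    cases N with
    | nil => exact ⟨trivial, rfl⟩
    | cons Z R =>
      simp only [canAdv, List.head?_cons, Option.elim_some, Bool.or_eq_false_iff] at hs
      have h4 : ¬ ∀ y ∈ Z, D K y = true := by
        have := hs.2
        rw [List.all_eq_false] at this
        obtain ⟨y, hy, hy'⟩ := this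
        exact fun hcon => hy' (hcon y hy)
      refine ⟨fun h5 => absurd h5 h4, leading_neg fun h5 => h4 fun y hy => hrefl K y (h5 y hy)⟩
  have key : ∀ M : List (List (List Bool)), (∀ Z ∈ M, ∀ y ∈ Z, y ∈ K) →
      Sat (fun Z z => D Z z = true) K (M ++ N) ∧ leading {y | y ∈ K} (M ++ N) = M.length := by
    intro M
    induction M with
    | nil => intro _; exact ⟨hN.1, hN.2⟩
    | cons Z M ih =>
      intro hM
      have hZ : ∀ y ∈ Z, y ∈ K := hM Z (by simp)
      obtain ⟨ih1, ih2⟩ := ih (fun Y hY => hM Y (List.mem_cons_of_mem _ hY))
      refine ⟨fun _ => ⟨hZ, ih1⟩, ?_⟩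
      rw [List.cons_append, leading_pos (by simpa using hZ), ih2]
      rfl
  obtain ⟨k1, k2⟩ := key M h2
  refine ⟨k1, ?_⟩
  simp only
  rw [k2]
  rw [hb] at h3
  cases b0 with
  | false => simp at h3 ⊢; exact h3
  | true => simp at h3 ⊢; exact h3

/-- Completeness. -/
theorem run_complete (hrefl : ∀ (K : List (List Bool)) (y : List Bool), y ∈ K → D K y = true)
    {l : List Item} (h : contra (run D l).2 = false) :
    ∀ it ∈ l, Sat (fun Z z => D Z z = true) (run D l).1 it.2 ∧
      (Odd (leading {y | y ∈ (run D l).1} it.2) ↔ it.1 = true) := by
  intro it0 h0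
  obtain ⟨it, h1, h2⟩ := rel_iter (D := D) (l0 := l) (work l).length (s := ([], l))
    (fun it h => ⟨it, h, [], by simp, by simp, by simp⟩) it0 h0
  have h3 : Stable D (run D l) := iter_stable _ (s := ([], l)) le_rfl
  refine sat_of_rel hrefl h2 (h3 it h1) ?_
  unfold contra at h
  rw [List.any_eq_false] at h
  simpa using h it h1

end Pool.Agent.H334R5.Nest
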